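import Pool.Agent.W2helper76.SP.Main2
import Pool.Agent.H297R2.InBakerThm

/-!
# Gel'fond's conjecture: exponentials over extensions of the field generated by a logarithm

Let `ℚ̄` be the field of algebraic numbers and let `λ_1, …, λ_N` be `ℚ`-linearly independent logarithms
of algebraic numbers. Every residue class in `ℤ ^ N` contains a residue class (for a larger modulus)
such that for all `b` in it the logarithm `x = b_1 λ_1 + ⋯ + b_N λ_N` has the following property:
the exponentials `e^{γ_1}, …, e^{γ_M}` of ARBITRARY distinct algebraic numbers are linearly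
independent over EVERY extension `k` of the field `ℚ̄(x)` with `[k : ℚ̄(x)] (M - 1) < N`.

In particular (`k = ℚ̄(x)`) any `N` exponentials are linearly independent over `ℚ̄(x)`; in other words,
every nontrivial polynomial relation `P(e^{α_1}, …, e^{α_s}, x) = 0`, of any degree, where the
algebraic numbers `α_i` are `ℚ`-linearly independent, contains more than `N` monomials in the first
`s` variables. And (`M = 2`) `e^α` has degree at least `N` over `ℚ̄(x)` for every algebraic `α ≠ 0`.
The residue class does not depend on the exponents.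

The proof (`Pool.Agent.W2helper76.SP`). The numbers `1, λ_1, …, λ_N` are linearly independent over
`ℚ̄` by Baker's theorem. If some `λ_i` is transcendental over the field `K` generated by all `e^γ`,
`γ ∈ ℚ̄`, then derivations give more than we need, for suitable `b`. Otherwise there is a derivation `D`
with `D e^γ = γ e^γ`, whose constants in the algebraic closure of `K` are the algebraic numbers (by
the theorem of Lindemann and Weierstrass). A finitely generated ring which contains the `λ_i` and is
stable under `D` is embedded into the `p`-adic integers by the theorem of Cassels, such that the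
Wronskian of the `D λ_i` is a unit. Hence there is a residue class of `b` modulo `p ^ N` such that the
`p`-adic Taylor series `∑ D^n(x) t^n / n!` takes its value at `0` exactly `N` times, counted with
multiplicities, in a small disc. A relation of `M` exponentials over `k` gives, by Kummer theory, such
a relation with exponents which are `p`-adic integers. Its norm to `ℚ̄(x)` gives a product of
`h = [k : ℚ̄(x)]` nonzero combinations of `M` functions `e^{δ t}` which is divisible by the Taylor
series minus its value at `0`. But each of them has at most `M - 1` zeros in the disc, uniformly in the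
exponents, so that `h (M - 1) ≥ N`.
-/

set_option autoImplicit false

namespace Pool.Agent.Results.MP_c82530_nt.ExponentialsOverExtensions

/-- The field `ℚ̄(x)`. -/
noncomputable def Qbarx (x : ℂ) : Subfield ℂ := Subfield.closure ({z : ℂ | IsAlgebraic ℚ z} ∪ {x})

/-- The numbers `e^γ`, `γ ∈ S`, are linearly independent over the field `k`. -/
def ExpIndependent (k : Subfield ℂ) (S : Finset ℂ) : Prop :=
  ∀ c : ℂ → ℂ, (∀ γ ∈ S, c γ ∈ k) → ∑ γ ∈ S, c γ * Complex.exp γ = 0 → ∀ γ ∈ S, c γ = 0

/-- `x` is transcendental, and the exponentials of the elements of any finite set `S` of algebraic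
numbers are linearly independent over every extension `k` of finite degree of `ℚ̄(x)` with
`[k : ℚ̄(x)] (|S| - 1) < N`. (Here `Subfield.relfinrank K k` is the degree `[k : K]` if it is finite, and
`0` otherwise.) -/
def DegreeBound (N : ℕ) (x : ℂ) : Prop :=
  Transcendental ℚ x ∧
  ∀ (k : Subfield ℂ) (S : Finset ℂ), Qbarx x ≤ k → 0 < Subfield.relfinrank (Qbarx x) k →
    (∀ γ ∈ S, IsAlgebraic ℚ γ) → Subfield.relfinrank (Qbarx x) k * (S.card - 1) < N →
    ExpIndependent k S

open Pool.Agent.W2helper76.UE Pool.Agent.W2helper76.SP

lemma qbarx_eq (x : ℂ) : Qbarx x = (IntermediateField.adjoin QB {x}).toSubfield := by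
  have h1 : Set.range (algebraMap QB ℂ) = {z : ℂ | IsAlgebraic ℚ z} := by
    ext z
    constructor
    · rintro ⟨a, rfl⟩
      exact mem_QB.1 a.2
    · intro hz
      exact ⟨⟨z, mem_QB.2 hz⟩, rfl⟩
  rw [Qbarx, ← h1]
  rfl

lemma degreeBound_of_freeDeg {N : ℕ} {x : ℂ} (h : FreeDeg N x) : DegreeBound N x := by
  classical
  obtain ⟨h1, h2⟩ := h
  refine ⟨?_, ?_⟩
  · intro halg
    have h3 : x ∈ QB := mem_QB.2 halg
    have h4 := h1 (Polynomial.X - Polynomial.C ⟨x, h3⟩) (by
      rw [map_sub, Polynomial.aeval_X, Polynomial.aeval_C]
      exact sub_self x)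
    exact Polynomial.X_sub_C_ne_zero _ h4
  · intro k S hle hfin hS hdeg c hc hrel γ hγ
    rw [qbarx_eq] at hle hfin hdeg
    set A := IntermediateField.adjoin QB {x} with hA
    let k' : IntermediateField QB ℂ :=
      { k with
        algebraMap_mem' := fun a => hle (A.algebraMap_mem a) }
    have hAk : A ≤ k' := hle
    have hfr : Subfield.relfinrank A.toSubfield k =
        Module.finrank A (IntermediateField.extendScalars hAk) :=
      IntermediateField.relfinrank_eq_finrank_of_le hAk
    rw [hfr] at hfin hdeg
    have hk' : FiniteDimensional A (IntermediateField.extendScalars hAk) :=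
      Module.finite_of_finrank_pos hfin
    let e : S ≃ Fin S.card := S.equivFin
    have h3 := h2 (IntermediateField.extendScalars hAk) S.card
      (fun i => ⟨(e.symm i : ℂ), mem_QB.2 (hS _ (e.symm i).2)⟩) (by
      intro i i' hii
      apply e.symm.injective
      apply Subtype.ext
      exact congrArg (fun w : QB => (w : ℂ)) hii) hdeg (fun i => c (e.symm i))
      (fun i => hc _ (e.symm i).2)
      (by
        rw [← hrel, ← Finset.sum_coe_sort S]
        exact Equiv.sum_comp e.symm (fun γ : S => c γ * Complex.exp (γ : ℂ))) (e ⟨γ, hγ⟩)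
    rw [Equiv.symm_apply_apply] at h3
    exact h3

/-- **Main result.** -/
theorem result (N : ℕ) (hN : 0 < N) (l : Fin N → ℂ)
    (halg : ∀ i, IsAlgebraic ℚ (Complex.exp (l i))) (hli : LinearIndependent ℚ l)
    (m' : ℕ) (hm' : 0 < m') (a' : Fin N → ℤ) :
    ∃ (m : ℕ) (a : Fin N → ℤ), 0 < m ∧ m' ∣ m ∧ (∀ i, a i ≡ a' i [ZMOD m']) ∧
      ∀ b : Fin N → ℤ, (∀ i, b i ≡ a i [ZMOD m]) → DegreeBound N (∑ i, (b i : ℂ) * l i) := by
  obtain ⟨m, a, h1, h2, h3, h4⟩ := main' N hN l (by
    intro c₀ c h0
    have h1 := (Pool.Agent.H297R2.baker_inhom l halg hli (c₀ : ℂ) (mem_QB.1 c₀.2)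
      (fun i => (c i : ℂ)) (fun i => mem_QB.1 (c i).2) h0).2
    funext i
    exact Subtype.ext (h1 i)) m' hm' a'
  exact ⟨m, a, h1, h2, h3, fun b hb => degreeBound_of_freeDeg (h4 b hb)⟩

end Pool.Agent.Results.MP_c82530_nt.ExponentialsOverExtensions
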