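import Mathlib
import Pool.Agent.W2helper76.UE.Grid
import Pool.Agent.W2helper17.UE.Enlarge
import Pool.Agent.W2helper3.UE.Ultra
import Pool.Agent.W2helper3.UE.Poly
import Pool.Agent.W2helper78.UE.Dens

/-!
# Gel'fond's conjecture in bounded complexity for all exponents at once

For all `M`, `D`, `k` there is a constant `C` such that for all `x ≥ 16` and all but
`C (log log x) ^ C / log x * x ^ k` of the `k`-tuples `(n_1, …, n_k)` of positive integers up to `x` the
following holds: for ALL distinct algebraic numbers `γ_1, …, γ_M` the numbers
`e ^ γ_j (log n_1) ^ a_1 ⋯ (log n_k) ^ a_k`, `1 ≤ j ≤ M`, `0 ≤ a_i ≤ D`, are linearly independent over the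
field of the algebraic numbers.

In particular (second part) for all but `C (log log x) ^ C / log x * x ^ k` of these tuples the
following holds: for ALL algebraic numbers `α_1, …, α_s`, linearly independent over `ℚ`, the numbers
`e ^ α_1, …, e ^ α_s, log n_1, …, log n_k` satisfy no nonzero polynomial relation with algebraic
coefficients of degree at most `D` in each of them.

The set of exceptional tuples does not depend on the exponents. This was known (`AllExponents`) for
one exponential and one logarithm. In `AlmostAllBetaRate` and the other density theorems the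
exceptional set depends on `α_1, …, α_s`. In the first part only the number `M` of the exponentials is
bounded, their exponents are arbitrary.

The proof (`Pool.Agent.W2helper76.UE`). By a multiplicative cube lemma it is sufficient that a grid
`x₀ + w_{1, f(1)} + ⋯ + w_{G, f(G)}`, `f(g) ≤ B`, with linearly independent directions in every group,
contains a good number if `G` and `B` are large. Otherwise there is, in an ultrapower, an exceptional
grid with directions indexed by an arbitrarily large set (`ultra`). Every element `x` has a support:
a finite dimensional `ℚ`-space `V` of exponents such that `x` is algebraic over a fixed field of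
constants and `e ^ V` (`enlarge`). Endomorphisms which multiply `e ^ γ` by `χ(γ)` for characters `χ` show
that sums with directions of at least `M + 1` groups with unbounded supports have supports of
dimension greater than `M` (`keyK`, `large`), while exceptional elements have supports of dimension at
most `M`. For the other groups the exponents can be chosen in a fixed finite dimensional, hence
countable, space (`reduce`). By a polarized partition theorem (`pigeon`) there is a finite grid of any
given size with fixed exponents, which contradicts the grid theorem for a fixed space of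
coefficients (`Pool.Agent.Y918.QC`).
-/

set_option autoImplicit false

namespace Pool.Agent.Results.MP_c82530_nt.UniformExponents

/-- For all distinct algebraic numbers `γ_1, …, γ_M` the numbers `e ^ γ_j ∏ y_i ^ a_i`, `0 ≤ a_i ≤ D`, are
linearly independent over the field of the algebraic numbers. -/
def Good (M D : ℕ) {k : ℕ} (y : Fin k → ℂ) : Prop :=
  ∀ γ : Fin M → ℂ, (∀ j, IsAlgebraic ℚ (γ j)) → Function.Injective γ →
    LinearIndependent (algebraicClosure ℚ ℂ)
      (fun p : Fin M × (Fin k → Fin (D + 1)) => Complex.exp (γ p.1) * ∏ i, y i ^ (p.2 i : ℕ))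

/-- For some `ℚ`-linearly independent algebraic numbers `α_1, …, α_s` the numbers `e ^ α_i`, `y_j` satisfy
a nonzero polynomial relation with algebraic coefficients, of degree at most `D` in each of them. -/
def HasRelation (s D : ℕ) {k : ℕ} (y : Fin k → ℂ) : Prop :=
  ∃ α : Fin s → ℂ, (∀ i, IsAlgebraic ℚ (α i)) ∧ LinearIndependent ℚ α ∧
    ∃ P : MvPolynomial (Fin s ⊕ Fin k) (algebraicClosure ℚ ℂ), P ≠ 0 ∧ (∀ i, P.degreeOf i ≤ D) ∧
      MvPolynomial.aeval (Sum.elim (fun i => Complex.exp (α i)) y) P = 0

open Classical in
/-- **Main result.** -/
theorem result (M D s k : ℕ) :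
    (∃ C : ℕ, ∀ x : ℕ, 16 ≤ x →
      (((Fintype.piFinset fun _ : Fin k => Finset.Icc 1 x).filter fun n =>
        ¬ Good M D (fun i => (Real.log (n i) : ℂ))).card : ℝ) ≤
      C * Real.log (Real.log x) ^ C / Real.log x * (x : ℝ) ^ k) ∧
    ∃ C : ℕ, ∀ x : ℕ, 16 ≤ x →
      (((Fintype.piFinset fun _ : Fin k => Finset.Icc 1 x).filter fun n =>
        HasRelation s D (fun i => (Real.log (n i) : ℂ))).card : ℝ) ≤
      C * Real.log (Real.log x) ^ C / Real.log x * (x : ℝ) ^ k := by
  have h := Pool.Agent.W2helper78.UE.dens
    (Pool.Agent.W2helper76.UE.grid Pool.Agent.W2helper17.UE.enlarge Pool.Agent.W2helper3.UE.ultra)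
  refine ⟨h M D k, ?_⟩
  obtain ⟨C, hC⟩ := h ((D + 1) ^ s) D k
  refine ⟨C, fun x hx => le_trans ?_ (hC x hx)⟩
  have h1 : ((Fintype.piFinset fun _ : Fin k => Finset.Icc 1 x).filter fun n =>
      HasRelation s D (fun i => (Real.log (n i) : ℂ))).card ≤
      ((Fintype.piFinset fun _ : Fin k => Finset.Icc 1 x).filter fun n =>
      ¬ Pool.Agent.W2helper76.UE.Good ((D + 1) ^ s) D (fun i => (Real.log (n i) : ℂ))).card := by
    apply Finset.card_le_card
    intro n hn
    rw [Finset.mem_filter] at hn ⊢
    refine ⟨hn.1, fun hg => ?_⟩
    obtain ⟨α, h1, h2, P, h3, h4, h5⟩ := hn.2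
    exact h3 (Pool.Agent.W2helper3.UE.poly s D k _ hg α h1 h2 P h4 h5)
  exact_mod_cast h1

end Pool.Agent.Results.MP_c82530_nt.UniformExponents
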