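import Mathlib
import Pool.Agent.W2helper76.UE.Grid
import Pool.Agent.W2helper17.UE.Enlarge
import Pool.Agent.W2helper17.UE.Rand
import Pool.Agent.W2helper3.UE.Ultra
import Pool.Agent.W2helper3.UE.Poly

/-!
# Random elements of groups of logarithms and all exponentials at once

For every `j < n` let `λ_{j,1}, …, λ_{j,k}` be logarithms of algebraic numbers which are linearly
independent over `ℚ` (for different `j` they may be the same), and let `ζ_j` be an arbitrary complex
number, for instance `0`. For all `M` and `D` there are `k₀`, `C` and `δ > 0`, which depend only on `M`,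
`D` and `n`, such that for all `k ≥ k₀` and every finite nonempty set `A` of rational numbers all but
`C |A| ^ (n k - δ k)` of the `|A| ^ (n k)` matrices `(a_{j,i})` with entries in `A` have the following
property: for ALL distinct algebraic numbers `γ_1, …, γ_M` the numbers `e ^ γ_i y_1 ^ d_1 ⋯ y_n ^ d_n`,
`0 ≤ d_j ≤ D`, where `y_j = ζ_j + ∑_i a_{j,i} λ_{j,i}`, are linearly independent over the field of the
algebraic numbers.

In particular (second part), for all but `C |A| ^ (n k - δ k)` matrices the numbers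
`e ^ α_1, …, e ^ α_s, y_1, …, y_n` satisfy, for ALL algebraic numbers `α_1, …, α_s` which are linearly
independent over `ℚ`, no nonzero polynomial relation with algebraic coefficients of degree at most `D`
in each of them. In `RandomLogarithms` the exceptional set depends on `α_1, …, α_s`.

For `ζ_j = 0` and `A = {0, 1}` the `y_j` are logarithms of the products over subsets of
`{β_{j,1}, …, β_{j,k}}`, where `β_{j,i} = exp λ_{j,i}`, and all but `C 2 ^ (n k - δ k)` of the
`2 ^ (n k)` tuples of subsets are good.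

The proof. The grid theorem with all exponents (`Pool.Agent.W2helper76.UE.grid`, the engine of
`UniformExponents`: ultrapowers with large index sets, supports of exponential-algebraic numbers,
a polarized partition argument) and an iterated Cauchy-Schwarz inequality for sets without grids.
-/

set_option autoImplicit false

namespace Pool.Agent.Results.MP_c82530_nt.UniformRandomLogarithms

/-- For all distinct algebraic numbers `γ_1, …, γ_M` the numbers `e ^ γ_j ∏ y_i ^ a_i`, `0 ≤ a_i ≤ D`, are
linearly independent over the field of the algebraic numbers. -/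
def Good (M D : ℕ) {k : ℕ} (y : Fin k → ℂ) : Prop :=
  ∀ γ : Fin M → ℂ, (∀ j, IsAlgebraic ℚ (γ j)) → Function.Injective γ →
    LinearIndependent (algebraicClosure ℚ ℂ)
      (fun p : Fin M × (Fin k → Fin (D + 1)) => Complex.exp (γ p.1) * ∏ i, y i ^ (p.2 i : ℕ))

/-- For some `ℚ`-linearly independent algebraic numbers `α_1, …, α_s` the numbers `e ^ α_i`, `y_j` satisfy
a nonzero polynomial relation with algebraic coefficients, of degree at most `D` in each of them. -/
def HasRelation (s D : ℕ) {k : ℕ} (y : Fin k → ℂ) : Prop :=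
  ∃ α : Fin s → ℂ, (∀ i, IsAlgebraic ℚ (α i)) ∧ LinearIndependent ℚ α ∧
    ∃ P : MvPolynomial (Fin s ⊕ Fin k) (algebraicClosure ℚ ℂ), P ≠ 0 ∧ (∀ i, P.degreeOf i ≤ D) ∧
      MvPolynomial.aeval (Sum.elim (fun i => Complex.exp (α i)) y) P = 0

open Classical in
/-- **Main result.** -/
theorem result (M D s n : ℕ) :
    (∃ (k₀ C : ℕ) (δ : ℝ), 0 < δ ∧ ∀ k ≥ k₀, ∀ lam : Fin n → Fin k → ℂ,
      (∀ j i, IsAlgebraic ℚ (Complex.exp (lam j i))) → (∀ j, LinearIndependent ℚ (lam j)) →
      ∀ (ζ : Fin n → ℂ) (A : Finset ℚ), A.Nonempty →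
      (((Fintype.piFinset fun _ : Fin n => Fintype.piFinset fun _ : Fin k => A).filter fun a =>
        ¬ Good M D (fun j => ζ j + ∑ i, (a j i : ℂ) * lam j i)).card : ℝ) ≤
      C * (A.card : ℝ) ^ ((n : ℝ) * k - δ * k)) ∧
    ∃ (k₀ C : ℕ) (δ : ℝ), 0 < δ ∧ ∀ k ≥ k₀, ∀ lam : Fin n → Fin k → ℂ,
      (∀ j i, IsAlgebraic ℚ (Complex.exp (lam j i))) → (∀ j, LinearIndependent ℚ (lam j)) →
      ∀ (ζ : Fin n → ℂ) (A : Finset ℚ), A.Nonempty →
      (((Fintype.piFinset fun _ : Fin n => Fintype.piFinset fun _ : Fin k => A).filter fun a =>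
        HasRelation s D (fun j => ζ j + ∑ i, (a j i : ℂ) * lam j i)).card : ℝ) ≤
      C * (A.card : ℝ) ^ ((n : ℝ) * k - δ * k) := by
  have h := Pool.Agent.W2helper17.UE.rand
    (Pool.Agent.W2helper76.UE.grid Pool.Agent.W2helper17.UE.enlarge Pool.Agent.W2helper3.UE.ultra)
  refine ⟨h M D n, ?_⟩
  obtain ⟨k₀, C, δ, hδ, hC⟩ := h ((D + 1) ^ s) D n
  refine ⟨k₀, C, δ, hδ, fun k hk lam halg hlam ζ A hA =>
    le_trans ?_ (hC k hk lam halg hlam ζ A hA)⟩
  have h1 : ((Fintype.piFinset fun _ : Fin n => Fintype.piFinset fun _ : Fin k => A).filter fun a =>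
      HasRelation s D (fun j => ζ j + ∑ i, (a j i : ℂ) * lam j i)).card ≤
      ((Fintype.piFinset fun _ : Fin n => Fintype.piFinset fun _ : Fin k => A).filter fun a =>
      ¬ Pool.Agent.W2helper76.UE.Good ((D + 1) ^ s) D
        (fun j => ζ j + ∑ i, (a j i : ℂ) * lam j i)).card := by
    apply Finset.card_le_card
    intro a ha
    rw [Finset.mem_filter] at ha ⊢
    refine ⟨ha.1, fun hg => ?_⟩
    obtain ⟨α, h1, h2, P, h3, h4, h5⟩ := ha.2
    exact h3 (Pool.Agent.W2helper3.UE.poly s D n _ hg α h1 h2 P h4 h5)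
  exact_mod_cast h1

end Pool.Agent.Results.MP_c82530_nt.UniformRandomLogarithms
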