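import Mathlib
import Pool.Agent.W2helper76.UE.Uni2
import Pool.Agent.W2helper17.UE.Enlarge
import Pool.Agent.W2helper3.UE.Ultra

/-!
# Sequences of logarithms in given groups which satisfy Gel'fond's conjecture in growing degree with
# arbitrary exponentials

Let `Λ_0, Λ_1, …` be groups of infinite rank of logarithms of algebraic numbers (for instance all the
same), and let `N`, `k` and `g` be arbitrary functions (of any growth). There are `t_i ∈ Λ_i` such that for
every `D` and for arbitrary numbers `x_1, …, x_s` of the `ℚ̄`-space spanned by `t_D, t_{D+1}, …`, linearly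
independent over `ℚ̄`, the following holds.

1. For ALL distinct algebraic numbers `γ_1, …, γ_{N(D)}` and polynomials `P_j`, not all zero, with
   algebraic coefficients and of total degree at most `g(D)`, the number
   `e ^ γ_1 P_1(x) + ⋯ + e ^ γ_{N(D)} P_{N(D)}(x)` is not zero.
2. For ALL algebraic numbers `α_1, …, α_{k(D)}` which are linearly independent over `ℚ` the numbers
   `e ^ α_1, …, e ^ α_{k(D)}, x_1, …, x_s` satisfy no nonzero polynomial relation with algebraic
   coefficients of total degree at most `g(D)`.

The number `s` is arbitrary; by Baker's theorem the `x_i` may be any elements of the group generated by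
`t_D, t_{D+1}, …` which are linearly independent over `ℚ`. In `UniversalLogSubgroups` there are only
the exponentials `e ^ α_0, …, e ^ α_D` of a sequence `α_0, α_1, …` which is chosen before the `t_i`. Here the
sequence `t_i` does not depend on the exponents.

The proof. The grid theorem with all exponents (`Pool.Agent.W2helper76.UE.grid`) and an iterated
Cauchy-Schwarz inequality show that for any finite number of conditions almost all subset sums of
sufficiently many independent elements of `Λ_n` satisfy all of them; so the `t_n` can be constructed step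
by step, with `n + 1` conditions (for the tails from `D = 0, …, n`) for `t_n`.
-/

set_option autoImplicit false

namespace Pool.Agent.Results.MP_c82530_nt.UniversalSequencesAllExponents

/-- The field of algebraic numbers. -/
noncomputable abbrev Qbar : IntermediateField ℚ ℂ := algebraicClosure ℚ ℂ

open Pool.Agent.W2helper76.UE Pool.Agent.W2helper17.UE in
theorem indep_seq {f g : ℕ → ℕ} {t : ℕ → ℂ} (ht : ∀ n, CondN f g n t (t n)) (hf : 1 ≤ f 0)
    (hg : 1 ≤ g 0) : LinearIndependent Qbar t := by
  classical
  have h1 : ∀ r, LinearIndependent QB (revTail 0 r t) := by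
    intro r
    have h2 := goodV_le hf (goodV_revTail ht 0 r)
    have h3 := (h2 (fun _ => 0) (fun a b _ => Subsingleton.elim a b)).comp
      (fun i : Fin r => ((fun j => if j = i then ⟨1, by omega⟩ else 0 : Fin r → Fin (g 0 + 1)),
        (0 : Fin 1))) (by
        intro i j hij
        have h4 := congrFun (Prod.ext_iff.mp hij).1 i
        by_contra hne
        simp only [if_true, if_neg hne] at h4
        have := congrArg Fin.val h4
        simp at this)
    convert h3 using 1
    funext i
    simp only [Function.comp, prodFam]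
    rw [Finset.prod_eq_single i]
    · simp [expQ]
    · intro j _ hj
      simp [hj]
    · intro h
      exact absurd (Finset.mem_univ i) h
  rw [linearIndependent_iff']
  intro s c hc i hi
  obtain ⟨r, hr⟩ : ∃ r, ∀ i ∈ s, i < r := ⟨s.sup id + 1, fun i hi =>
    Nat.lt_succ_of_le (Finset.le_sup (f := id) hi)⟩
  have h2 := Fintype.linearIndependent_iff.1 (h1 r)
    (fun j => if r - 1 - (j : ℕ) ∈ s then c (r - 1 - j) else 0) (by
      rw [← hc]
      have h3 : ∑ i ∈ s, c i • t i = ∑ i ∈ Finset.range r, (if i ∈ s then c i • t i else 0) := by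
        rw [← Finset.sum_filter]
        apply Finset.sum_congr
        · ext i
          simp only [Finset.mem_filter, Finset.mem_range]
          exact ⟨fun h => ⟨hr i h, h⟩, fun h => h.2⟩
        · exact fun _ _ => rfl
      rw [h3, ← Finset.sum_range_reflect, Finset.sum_range]
      refine Finset.sum_congr rfl fun j _ => ?_
      simp only [revTail, Nat.zero_add]
      split_ifs
      · rfl
      · rw [zero_smul])
  have h3 := h2 ⟨r - 1 - i, by have := hr i hi; omega⟩
  have h4 : r - 1 - (r - 1 - i) = i := by have := hr i hi; omega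
  simp only [h4, if_pos hi] at h3
  exact h3

/-- **Main result.** -/
theorem result (N k g : ℕ → ℕ)
    (Λ : ℕ → AddSubgroup ℂ) (hΛ : ∀ i, ∀ x ∈ Λ i, IsAlgebraic ℚ (Complex.exp x))
    (rΛ : ∀ i R : ℕ, ∃ w : Fin R → ℂ, (∀ j, w j ∈ Λ i) ∧ LinearIndependent ℚ w) :
    ∃ t : ℕ → ℂ, (∀ i, t i ∈ Λ i) ∧ LinearIndependent Qbar t ∧
      ∀ (D s : ℕ) (x : Fin s → ℂ),
        (∀ l, x l ∈ Submodule.span Qbar (t '' Set.Ici D)) → LinearIndependent Qbar x →
        (∀ γ : Fin (N D) → ℂ, (∀ j, IsAlgebraic ℚ (γ j)) → Function.Injective γ →
          ∀ P : Fin (N D) → MvPolynomial (Fin s) Qbar, (∀ j, (P j).totalDegree ≤ g D) →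
          ∑ j, Complex.exp (γ j) * MvPolynomial.aeval x (P j) = 0 → P = 0) ∧
        ∀ α : Fin (k D) → ℂ, (∀ i, IsAlgebraic ℚ (α i)) → LinearIndependent ℚ α →
          ∀ P : MvPolynomial (Fin (k D) ⊕ Fin s) Qbar, P.totalDegree ≤ g D →
          MvPolynomial.aeval (Sum.elim (fun i => Complex.exp (α i)) x) P = 0 → P = 0 := by
  obtain ⟨t, ht1, ht2⟩ := Pool.Agent.W2helper76.UE.exists_seq
    (Pool.Agent.W2helper76.UE.grid Pool.Agent.W2helper17.UE.enlarge Pool.Agent.W2helper3.UE.ultra)
    (fun D => N D + (g D + 1 + 1) ^ k D + 1) (fun D => g D + 1) Λ hΛ rΛ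
  refine ⟨t, ht1, indep_seq ht2 (by omega) (by omega), fun D s x hx hli => ⟨?_, ?_⟩⟩
  · intro γ hγ hinj P hP h0
    exact Pool.Agent.W2helper76.UE.tail_sparse ht2 D s x hx hli (M := N D) (by omega)
      (fun j => ⟨γ j, mem_algebraicClosure_iff.2 (hγ j)⟩)
      (fun a b hab => hinj (congrArg Subtype.val hab)) P
      (fun j => (hP j).trans (Nat.le_succ _)) h0
  · intro α hα hαli P hP h0
    exact Pool.Agent.W2helper76.UE.tail_poly ht2 D s x hx hli (k := k D) (by
      show (g D + 1 + 1) ^ k D ≤ N D + (g D + 1 + 1) ^ k D + 1
      omega) α hα hαli P (hP.trans (Nat.le_succ _)) h0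

end Pool.Agent.Results.MP_c82530_nt.UniversalSequencesAllExponents
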